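import Mathlib
import Pool.Agent.Helper220.MG.Decomp

set_option autoImplicit false

namespace Pool.Agent.Results.MP_085bfa_gt.StructuralNumber

open Set Topology TopologicalSpace

/-- `IndLT k X`: the small inductive dimension of `X` is at most `k - 1`. -/
def IndLT : ℕ → (X : Type) → [TopologicalSpace X] → Prop
  | 0, X, _ => IsEmpty X
  | (k + 1), X, _ => ∀ x : X, ∀ U ∈ nhds x, ∃ V : Set X,
      IsOpen V ∧ x ∈ V ∧ V ⊆ U ∧ IndLT k ↥(frontier V)

/-- The small inductive dimension of `X` is exactly `n`. -/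
def IndEq (n : ℕ) (X : Type) [TopologicalSpace X] : Prop :=
  IndLT (n + 1) X ∧ ¬ IndLT n X

/-- `(X, t)` is separable, metrizable and has small inductive dimension `0`. -/
def IsSM0 (X : Type) (t : TopologicalSpace X) : Prop :=
  @SeparableSpace X t ∧ @MetrizableSpace X t ∧ @IndEq 0 X t

/-- `t` is an extension of the topology `τ` (it contains `τ`). -/
def IsExtension {X : Type} (τ t : TopologicalSpace X) : Prop :=
  ∀ U : Set X, IsOpen[τ] U → IsOpen[t] U

theorem indRec : Pool.Agent.Helper220.MG.IndRec IndLT := by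
  intro α _
  refine ⟨by rw [IndLT], fun k => by rw [IndLT]⟩

/-- A Hausdorff topology generated by a countable family closed under complements. -/
theorem gen_props {X : Type} [t : TopologicalSpace X] [T2Space X] [Nonempty X] (g : Set (Set X))
    (hg : t = generateFrom g) (hc : g.Countable) (hcomp : ∀ W ∈ g, Wᶜ ∈ g) :
    IsSM0 X t ∧ ∀ U : Set X, IsOpen U → ∀ x ∈ U, ∃ f : Set (Set X), f.Finite ∧ f ⊆ g ∧
      x ∈ ⋂₀ f ∧ ⋂₀ f ⊆ U := by
  have hopen : ∀ W ∈ g, IsOpen W := by
    intro W hW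
    rw [hg]
    exact isOpen_generateFrom_of_mem hW
  have hclopen : ∀ W ∈ g, IsClopen W := fun W hW =>
    ⟨⟨hopen _ (hcomp W hW)⟩, hopen W hW⟩
  have hbasis := isTopologicalBasis_of_subbasis hg
  have hbclopen : ∀ f : Set (Set X), f.Finite → f ⊆ g → IsClopen (⋂₀ f) := by
    intro f hf hfg
    rw [sInter_eq_biInter]
    exact hf.isClopen_biInter (fun i hi => hclopen i (hfg hi))
  have hloc : ∀ x : X, ∀ U ∈ nhds x, ∃ f : Set (Set X), f.Finite ∧ f ⊆ g ∧
      x ∈ ⋂₀ f ∧ ⋂₀ f ⊆ U := by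
    intro x U hU
    obtain ⟨W, ⟨f, ⟨hf, hfg⟩, rfl⟩, hxW, hWU⟩ := hbasis.mem_nhds_iff.mp hU
    exact ⟨f, hf, hfg, hxW, hWU⟩
  have hzd : Pool.Agent.Helper220.MG.ZD X := by
    intro x U hU
    obtain ⟨f, hf, hfg, hx, hfU⟩ := hloc x U hU
    exact ⟨⋂₀ f, hbclopen f hf hfg, hx, hfU⟩
  have hsc : SecondCountableTopology X := ⟨g, hc, hg⟩
  have hreg : RegularSpace X := by
    refine RegularSpace.of_exists_mem_nhds_isClosed_subset ?_
    intro x U hU
    obtain ⟨W, hW, hxW, hWU⟩ := hzd x U hU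
    exact ⟨W, hW.isOpen.mem_nhds hxW, hW.isClosed, hWU⟩
  have hT3 : T3Space X := {}
  have hmet : MetrizableSpace X := metrizableSpace_of_t3_secondCountable X
  refine ⟨⟨inferInstance, hmet, (Pool.Agent.Helper220.MG.ind_one_iff indRec X).mpr hzd, ?_⟩,
    fun U hU x hx => hloc x U (hU.mem_nhds hx)⟩
  intro h
  have h' : IsEmpty X := h
  exact h'.false (Classical.arbitrary X)

open Pool.Agent.Helper220.MG in
/-- One extension: it agrees with the given topology at the points of a zero-dimensional set. -/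
theorem one_extension {X : Type} [τ : TopologicalSpace X] [SecondCountableTopology X]
    [MetrizableSpace X] [Nonempty X] {T : Set X} (hT : ZD ↥T) :
    ∃ t : TopologicalSpace X, IsExtension τ t ∧ IsSM0 X t ∧
      ∀ U : Set X, IsOpen[t] U → ∀ x ∈ T, x ∈ U → U ∈ @nhds X τ x := by
  obtain ⟨V, hV, hVT⟩ := exists_basis_missing hT
  obtain ⟨g, hg⟩ : ∃ g : Set (Set X), g = range V ∪ range (fun k => (V k)ᶜ) := ⟨_, rfl⟩
  have hgc : g.Countable := by
    rw [hg]; exact (countable_range V).union (countable_range _)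
  have hgcomp : ∀ W ∈ g, Wᶜ ∈ g := by
    rw [hg]
    rintro W (⟨k, rfl⟩ | ⟨k, rfl⟩)
    · exact Or.inr ⟨k, rfl⟩
    · left; rw [compl_compl]; exact ⟨k, rfl⟩
  have hext : IsExtension τ (generateFrom g) := by
    intro U hU
    obtain ⟨S, hS, rfl⟩ := hV.open_eq_sUnion hU
    apply @isOpen_sUnion X (generateFrom g) S
    intro W hW
    obtain ⟨k, rfl⟩ := hS hW
    exact isOpen_generateFrom_of_mem (by rw [hg]; exact Or.inl ⟨k, rfl⟩)
  have hT2 : @T2Space X (generateFrom g) := by
    refine @T2Space.mk X (generateFrom g) ?_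
    intro x y hxy
    obtain ⟨A, B, hA, hB, hxA, hyB, hAB⟩ := t2_separation (X := X) hxy
    exact ⟨A, B, hext A hA, hext B hB, hxA, hyB, hAB⟩
  have hnear : ∀ x ∈ T, ∀ f : Set (Set X), f.Finite → f ⊆ g → x ∈ ⋂₀ f → ⋂₀ f ∈ nhds x := by
    intro x hxT f hf hfg hx
    rw [Filter.sInter_mem hf]
    intro S hS
    have hxS : x ∈ S := hx S hS
    have hSg := hfg hS
    rw [hg] at hSg
    rcases hSg with ⟨k, rfl⟩ | ⟨k, rfl⟩
    · exact (hV.isOpen ⟨k, rfl⟩).mem_nhds hxS
    · have h1 : x ∉ closure (V k) := by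
        intro hc
        have : x ∈ frontier (V k) := by
          rw [(hV.isOpen ⟨k, rfl⟩).frontier_eq]
          exact ⟨hc, hxS⟩
        exact Set.disjoint_left.mp (hVT k) this hxT
      have h2 : (closure (V k))ᶜ ∈ nhds x := isClosed_closure.isOpen_compl.mem_nhds h1
      exact Filter.mem_of_superset h2 (compl_subset_compl.mpr subset_closure)
  obtain ⟨h1, h2⟩ := @gen_props X (generateFrom g) hT2 _ g rfl hgc hgcomp
  refine ⟨generateFrom g, hext, h1, ?_⟩
  intro U hU x hxT hxU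
  obtain ⟨f, hf, hfg, hx, hfU⟩ := h2 U hU x hxU
  exact Filter.mem_of_superset (hnear x hxT f hf hfg hx) hfU

/-- Every separable metrizable topology of dimension `n` is the intersection of `n + 1` separable
metrizable zero-dimensional extensions. -/
theorem result (n : ℕ) (X : Type) (τ : TopologicalSpace X) (hs : SeparableSpace X)
    (hm : MetrizableSpace X) (hn : IndEq n X) :
    ∃ t : Fin (n + 1) → TopologicalSpace X,
      (∀ i, IsExtension τ (t i) ∧ IsSM0 X (t i)) ∧
      ∀ U : Set X, IsOpen[τ] U ↔ ∀ i, IsOpen[t i] U := by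
  have : SecondCountableTopology X := by
    let _ := metrizableSpaceMetric X
    exact UniformSpace.secondCountable_of_separable X
  have : Nonempty X := by
    by_contra h
    rw [not_nonempty_iff] at h
    exact hn.2 (Pool.Agent.Helper220.MG.ind_of_isEmpty indRec n X h)
  obtain ⟨E, hE, hZ⟩ := Pool.Agent.Helper220.MG.decomp indRec (n + 1) X hn.1
  have hall : ∀ c, ∃ t : TopologicalSpace X, IsExtension τ t ∧ IsSM0 X t ∧
      ∀ U : Set X, IsOpen[t] U → ∀ x ∈ E c, x ∈ U → U ∈ @nhds X τ x :=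
    fun c => one_extension (hZ c)
  choose t ht1 ht2 ht3 using hall
  refine ⟨t, fun i => ⟨ht1 i, ht2 i⟩, fun U => ⟨fun hU i => ht1 i U hU, fun hU => ?_⟩⟩
  rw [isOpen_iff_mem_nhds]
  intro x hx
  obtain ⟨c, hc⟩ := hE x
  exact ht3 c U (hU c) x hc hx

end Pool.Agent.Results.MP_085bfa_gt.StructuralNumber
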